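import Pool.Agent.H95.FH.Defs
import Pool.Agent.H95.FG.Fin

open MvPolynomial

namespace H95.FH
open H95.FG

/-- dimension one: all ranks occur -/
theorem dim_one (m : ℕ) : m ∈ SosRanks 1 1 := by
  refine ⟨fun j => X 0 ^ ((j : ℕ) + 1), ?_,
    ∑ j : Fin m, (X (Sum.inl 0) * X (Sum.inr 0)) ^ (j : ℕ), ?_⟩
  · have h := (MvPolynomial.basisMonomials (Fin 1) ℂ).linearIndependent.comp
      (fun j : Fin m => Finsupp.single 0 ((j : ℕ) + 1)) (by
        intro i j hij
        have := Finsupp.single_injective 0 hij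
        ext
        omega)
    have e : (fun j : Fin m => (X 0 ^ ((j : ℕ) + 1) : MvPolynomial (Fin 1) ℂ)) =
        (⇑(MvPolynomial.basisMonomials (Fin 1) ℂ) ∘
          fun j : Fin m => Finsupp.single 0 ((j : ℕ) + 1)) := by
      funext j
      simp [MvPolynomial.coe_basisMonomials, MvPolynomial.X_pow_eq_monomial]
    rw [e]
    exact h
  · intro z
    have hn : ∀ w : ℂ, ((‖w‖ : ℝ) : ℂ) ^ 2 = w * (starRingEnd ℂ) w := by
      intro w
      rw [Complex.mul_conj, Complex.normSq_eq_norm_sq]
      push_cast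
      rfl
    simp only [map_sum, map_pow, map_mul, eval_X, Sum.elim_inl, Sum.elim_inr, norm_pow, pow_one,
      Finset.univ_unique, Finset.sum_singleton, Fin.default_eq_zero]
    push_cast
    rw [Finset.mul_sum]
    refine Finset.sum_congr rfl fun j _ => ?_
    rw [← hn]
    ring

/-- the final theorem from the parts -/
theorem final_of (hG : S_GAP) (hN : S_NINE) (h3 : S_THREE) :
    ∀ n m : ℕ, 1 ≤ n → (n ≤ 4 ∨ m < 2 * n - 1) →
      (m ∈ SosRanks 1 n ↔ m = 0 ∨ m = n ∨ 2 * n - 1 ≤ m) := by
  obtain ⟨h4, h4'⟩ := H95.FG.final_of hG hN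
  have hz : ∀ n, 0 ∈ SosRanks 1 n := fun n => H402.CE.zero_mem 1 n
  have hn : ∀ n : ℕ, 2 ≤ n → n ∈ SosRanks 1 n := by
    intro n h
    have := H402.CE.chain_mem n 1 0 h (by norm_num)
    rw [ranks_eq]
    simpa using this
  have h1 : ∀ n m : ℕ, 1 ≤ n → m < 2 * n - 1 → (m ∈ SosRanks 1 n ↔ m = 0 ∨ m = n) := by
    intro n m h hlt
    rcases Nat.lt_or_ge n 4 with hn4 | hn4
    · constructor
      · intro hm
        by_cases h0 : m = 0
        · exact Or.inl h0
        · right
          have hge := ge_n h hm h0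
          by_contra hne
          have : n = 3 ∧ m = 4 := by omega
          obtain ⟨rfl, rfl⟩ := this
          exact h3 hm
      · rintro (rfl | rfl)
        · exact hz n
        · exact hn m (by omega)
    · exact h4 n m hn4 hlt
  intro n m h hor
  rcases Nat.lt_or_ge m (2 * n - 1) with hlt | hge
  · rw [h1 n m h hlt]
    omega
  · refine ⟨fun _ => Or.inr (Or.inr hge), fun _ => ?_⟩
    have hn4 : n ≤ 4 := by omega
    have hcase : n = 1 ∨ n = 2 ∨ n = 3 ∨ n = 4 := by omega
    rcases hcase with rfl | rfl | rfl | rfl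
    · exact dim_one m
    · exact H402.CE.conductor_one 2 m (by norm_num) (by omega)
    · exact H402.CE.conductor_one 3 m (by norm_num) (by omega)
    · rw [h4']
      exact Or.inr (Or.inr (by omega))

end H95.FH
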