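import Pool.Agent.H95.FH.Defs
import Pool.Agent.H55.FH.Vec
import Pool.Agent.H78.FH.I2

open MvPolynomial

namespace H95.FH.I1
open H95.FG H95.FH H55.FH

/-- chain rule -/
theorem chain2 (x : Fin 3 ⊕ Fin 3 → Polynomial ℂ) (P : Q3) :
    Polynomial.derivative (aeval x P) =
      ∑ k, Polynomial.derivative (x k) * aeval x (pderiv k P) := by
  induction P using MvPolynomial.induction_on with
  | C a => simp
  | add p q hp hq =>
    rw [map_add, map_add, hp, hq, ← Finset.sum_add_distrib]
    refine Finset.sum_congr rfl (fun k _ => ?_)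
    rw [map_add, map_add]; ring
  | mul_X p i hp =>
    rw [map_mul, aeval_X, Polynomial.derivative_mul, hp, Finset.sum_mul]
    have h1 : ∀ k, Polynomial.derivative (x k) * aeval x (pderiv k (p * X i)) =
        Polynomial.derivative (x k) * aeval x (pderiv k p) * x i +
          (if k = i then aeval x p * Polynomial.derivative (x i) else 0) := by
      intro k
      rw [pderiv_mul, map_add, map_mul, map_mul, aeval_X]
      by_cases hk : k = i
      · subst hk
        rw [pderiv_X_self, map_one, if_pos rfl]; ring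
      · rw [pderiv_X_of_ne (fun h => hk h.symm), map_zero, if_neg hk]; ring
    simp only [h1, Finset.sum_add_distrib, Finset.sum_ite_eq', Finset.mem_univ, if_true]

theorem dAY_zero (A : Q3) (z Y U : Fin 3 → ℂ) (d : ℕ) (hd : 2 ≤ d) (c : ℂ)
    (h : ∀ s : ℂ, AA A z (Y + s • U) = s ^ d * c) : dAY A U z Y = 0 := by
  set x : Fin 3 ⊕ Fin 3 → Polynomial ℂ := Sum.elim (fun k => Polynomial.C (z k))
    (fun k => Polynomial.C (Y k) + Polynomial.X * Polynomial.C (U k)) with hx
  have h1 : aeval x A = Polynomial.X ^ d * Polynomial.C c := by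
    apply Polynomial.funext
    intro s
    rw [H78.FH.eval_aeval2]
    simp only [Polynomial.eval_mul, Polynomial.eval_pow, Polynomial.eval_X, Polynomial.eval_C]
    rw [← h s]
    unfold AA
    refine congrArg (fun g => eval g A) ?_
    ext k
    cases k with
    | inl k => simp [hx]
    | inr k => simp [hx]; ring
  have h2 := congrArg (Polynomial.eval 0) (chain2 x A)
  rw [h1, Polynomial.eval_finsetSum, Fintype.sum_sum_type] at h2
  have h3 : Polynomial.eval 0 (Polynomial.derivative
      (Polynomial.X ^ d * Polynomial.C c)) = 0 := by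
    rw [Polynomial.derivative_mul, Polynomial.derivative_C, mul_zero, add_zero,
      Polynomial.derivative_X_pow, Polynomial.eval_mul, Polynomial.eval_mul,
      Polynomial.eval_pow, Polynomial.eval_X, zero_pow (by omega)]
    simp
  rw [h3] at h2
  have h4 : ∀ k : Fin 3, Polynomial.eval 0 (Polynomial.derivative (x (Sum.inl k)) *
      aeval x (pderiv (Sum.inl k) A)) = 0 := by
    intro k
    simp [hx]
  have h5 : ∀ k : Fin 3, Polynomial.eval 0 (Polynomial.derivative (x (Sum.inr k)) *
      aeval x (pderiv (Sum.inr k) A)) = U k * eval (Sum.elim z Y) (pderiv (Sum.inr k) A) := by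
    intro k
    rw [Polynomial.eval_mul, H78.FH.eval_aeval2]
    have e1 : Polynomial.eval 0 (Polynomial.derivative (x (Sum.inr k))) = U k := by
      simp [hx]
    have e2 : (fun i => Polynomial.eval 0 (x i)) = Sum.elim z Y := by
      ext i
      cases i <;> simp [hx]
    rw [e1, e2]
  simp only [h4, h5, Finset.sum_const_zero, zero_add] at h2
  unfold dAY
  exact h2.symm

theorem dp_add {m : ℕ} (p : P3 m) (u v y : Fin 3 → ℂ) :
    dp p (u + v) y = dp p u y + dp p v y := by
  unfold dp
  funext j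
  simp only [Pi.add_apply]
  rw [← Finset.sum_add_distrib]
  refine Finset.sum_congr rfl fun k _ => ?_
  ring

/-- the core -/
theorem core (hSWAP : S_SWAP) (hBAS : S_BAS) (hINJ : S_INJ) (hPAR : S_PAR) (hSTAR : S_STAR)
    (m d : ℕ) (p : P3 m) (A : Q3) (hc : Ctx m d p A) (z0 : Fin 3 → ℂ) (ε : ℝ)
    (hgood : ∀ z, ‖z - z0‖ < ε → Good p A z) (z : Fin 3 → ℂ) (hz : ‖z - z0‖ < ε)
    (Y1 : Fin 3 → ℂ) (hY1 : Y1 ≠ 0) (hzY1 : dt z Y1 = 0)
    (hZ : ∀ z', dt z' Y1 = 0 → AA A z' Y1 = 0) :
    (∀ Y, Root A z Y → ∃ c : ℂ, c ≠ 0 ∧ Y = c • Y1) ∧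
    ∀ U, ¬ LinearIndependent ℂ ![ev (cp p) Y1, dp (cp p) U Y1] := by
  obtain ⟨-, hph, -, -, hAY, -, -, -⟩ := hBAS m d p A hc
  obtain ⟨hswctx, -⟩ := hSWAP m d p A hc
  have hd := hc.hd
  have hz0 : z ≠ 0 := by
    intro h
    apply (hgood z hz).1
    have := hph 0 z
    rw [zero_smul, zero_pow (by omega), zero_smul] at this
    rw [h]; exact this
  have hevY1 : ev (cp p) Y1 ≠ 0 := (hgood z hz).2.1 Y1 hY1 hzY1
  -- a second vector of `Y1^⊥`
  obtain ⟨h, hh⟩ := exists_dual hY1
  obtain ⟨u, hu, hzu⟩ : ∃ u, dt u Y1 = 0 ∧ cr z u ≠ 0 := by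
    obtain ⟨w, hw⟩ := exists_dual hz0
    refine ⟨cr Y1 w, ?_, ?_⟩
    · rw [dt_comm]; exact cr_left _ _
    · have e : cr z (cr Y1 w) = (dt w z) • Y1 := by
        rw [dt3] at hzY1
        rw [dt3]
        apply vext <;> simp [cr]
        · linear_combination (-(w 0)) * hzY1
        · linear_combination (-(w 1)) * hzY1
        · linear_combination (-(w 2)) * hzY1
      rw [e]
      exact smul_ne_zero hw hY1
  have hY1cr : ∀ x : Fin 3 → ℂ, dt x z = 0 → dt x u = 0 → ∃ c : ℂ, x = c • cr z u :=
    fun x h1 h2 => perp2 hzu h1 h2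
  obtain ⟨κ, hκ⟩ := hY1cr Y1 (by rw [dt_comm]; exact hzY1) (by rw [dt_comm]; exact hu)
  have hκ0 : κ ≠ 0 := by
    rintro rfl
    rw [zero_smul] at hκ
    exact hY1 hκ
  set zt : ℂ → (Fin 3 → ℂ) := fun t => z + t • u with hzt
  have hz00 : zt 0 = z := by simp [hzt]
  have hztY : ∀ t, dt (zt t) Y1 = 0 := by
    intro t
    simp only [hzt]
    rw [dt_add_left, dt_smul_left, hzY1, hu]; ring
  have hzt0 : ∀ t, zt t ≠ 0 := by
    intro t ht
    apply hzu
    have h1 : z = (-t) • u := by
      have : z + t • u = 0 := ht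
      rw [neg_smul]
      exact eq_neg_of_add_eq_zero_left this
    rw [h1]
    apply vext <;> simp [cr] <;> ring
  set W : ℂ → (Fin 3 → ℂ) := fun t => cr (zt t) h with hW
  have hWne : ∀ t, W t ≠ 0 := fun t => cr_ne (hzt0 t) (hztY t) hh
  have hWz : ∀ t, dt (zt t) (W t) = 0 := fun t => cr_left _ _
  -- `Y1` and `W t` form a basis of `(zt t)^⊥`
  have hWY : ∀ t (a b : ℂ), a • Y1 + b • W t = 0 → a = 0 ∧ b = 0 := by
    intro t a b hab
    have h1 : dt h (a • Y1 + b • W t) = a * dt h Y1 := by
      rw [dt_add_right, dt_smul_right, dt_smul_right]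
      have : dt h (W t) = 0 := cr_right _ _
      rw [this]; ring
    rw [hab, dt_zero_right] at h1
    have ha : a = 0 := (mul_eq_zero.mp h1.symm).resolve_right hh
    refine ⟨ha, ?_⟩
    rw [ha, zero_smul, zero_add] at hab
    exact (smul_eq_zero.mp hab).resolve_right (hWne t)
  have hbasis : ∀ t Y, dt (zt t) Y = 0 → ∃ a b : ℂ, Y = a • Y1 + b • W t := by
    intro t Y hY
    set a := dt h Y / dt h Y1 with ha
    have h1 : dt (Y - a • Y1) (zt t) = 0 := by
      rw [dt_sub_left, dt_smul_left, dt_comm Y, hY, dt_comm Y1, hztY]; ring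
    have h2 : dt (Y - a • Y1) h = 0 := by
      rw [dt_sub_left, dt_smul_left, dt_comm Y, dt_comm Y1, ha]
      field_simp
      ring
    obtain ⟨b, hb⟩ := perp2 (hWne t) h1 h2
    exact ⟨a, b, by rw [← hb]; abel⟩
  -- the bad parameters
  set B : Set ℂ := {t | ‖zt t - z0‖ < ε} with hB
  have hBinf : B.Infinite := by
    apply infinite_of_mem_nhds (0 : ℂ)
    have hcont : Continuous fun t : ℂ => ‖zt t - z0‖ := by
      rw [hzt]; fun_prop
    have h1 : ∀ᶠ t in nhds (0 : ℂ), ‖zt t - z0‖ < ε := by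
      refine hcont.continuousAt.eventually_lt continuousAt_const ?_
      rw [hz00]; exact hz
    exact h1
  set T : Set ℂ := {t | t ∈ B ∧ ∃ Y2, Root A (zt t) Y2 ∧ LinearIndependent ℂ ![Y1, Y2]} with hT
  have hTfin : T.Finite := by
    by_contra hinf
    have hinf' : T.Infinite := hinf
    apply hevY1
    classical
    choose! f hf1 hf2 using fun t (ht : t ∈ T) => ht.2
    apply hSTAR 3 m (cp p) (sw A) hswctx.sys Y1 f T hinf'
    · intro σ hσ τ hτ hne
      rw [LinearIndependent.pair_iff]
      intro a b hab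
      have h1 := congrArg (dt (zt τ)) hab
      rw [dt_add_right, dt_smul_right, dt_smul_right, (hf1 τ hτ).2.1, dt_zero_right, mul_zero,
        add_zero] at h1
      have h2 : dt (zt τ) (f σ) = (τ - σ) * dt u (f σ) := by
        have h3 : zt τ = zt σ + (τ - σ) • u := by
          simp only [hzt]
          rw [add_assoc, ← add_smul]; congr 2; ring
        rw [h3, dt_add_left, (hf1 σ hσ).2.1, dt_smul_left, zero_add]
      have h5 : dt u (f σ) ≠ 0 := by
        intro h5
        have h6 : dt z (f σ) = 0 := by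
          have h7 := (hf1 σ hσ).2.1
          simp only [hzt] at h7
          rw [dt_add_left, dt_smul_left, h5, mul_zero, add_zero] at h7
          exact h7
        obtain ⟨c, hcσ⟩ := hY1cr (f σ) (by rw [dt_comm]; exact h6) (by rw [dt_comm]; exact h5)
        have := (LinearIndependent.pair_iff.1 (hf2 σ hσ)) c (-κ) (by
          rw [hcσ, hκ, smul_smul, smul_smul, ← add_smul]
          have : c * κ + -κ * c = 0 := by ring
          rw [this, zero_smul])
        exact hκ0 (neg_eq_zero.mp this.2)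
      have h4 : dt (zt τ) (f σ) ≠ 0 := by
        rw [h2]
        exact mul_ne_zero (sub_ne_zero.mpr (Ne.symm hne)) h5
      have ha := (mul_eq_zero.mp h1).resolve_right h4
      refine ⟨ha, ?_⟩
      rw [ha, zero_smul, zero_add] at hab
      exact (smul_eq_zero.mp hab).resolve_right (hf1 τ hτ).1
    · intro σ hσ
      have hgσ := hgood (zt σ) hσ.1
      have hinj := hINJ m d p A hc (zt σ) hgσ.1 hgσ.2.2
      have hpar := (hPAR m d p A hc (zt σ) hinj).1 Y1 (f σ) ⟨hY1, hztY σ, hZ _ (hztY σ)⟩ (hf1 σ hσ)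
      obtain ⟨c, hcc⟩ := mult_of_not_li hevY1 hpar
      refine ⟨c, ?_, hcc⟩
      rintro rfl
      rw [zero_smul] at hcc
      exact hgσ.2.1 (f σ) (hf1 σ hσ).1 (hf1 σ hσ).2.1 hcc
  have hinf : (B \ T).Infinite := hBinf.sdiff hTfin
  -- the key identity
  have key : ∀ (t a : ℂ), AA A (zt t) (a • Y1 + W t) = AA A (zt t) (W t) := by
    intro t a
    set x : Fin 3 ⊕ Fin 3 → Polynomial ℂ := Sum.elim
      (fun k => Polynomial.C (z k) + Polynomial.X * Polynomial.C (u k)) (fun k =>
        Polynomial.C (a * Y1 k + cr z h k) + Polynomial.X * Polynomial.C (cr u h k)) with hx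
    set y : Fin 3 ⊕ Fin 3 → Polynomial ℂ := Sum.elim
      (fun k => Polynomial.C (z k) + Polynomial.X * Polynomial.C (u k)) (fun k =>
        Polynomial.C (cr z h k) + Polynomial.X * Polynomial.C (cr u h k)) with hy
    have hWk : ∀ t k, W t k = cr z h k + t * cr u h k := by
      intro t k
      simp only [hW, hzt]
      fin_cases k <;> simp [cr] <;> ring
    have hztk : ∀ t k, zt t k = z k + t * u k := by
      intro t k
      simp only [hzt, Pi.add_apply, Pi.smul_apply, smul_eq_mul]
    have ex : ∀ t, (aeval x A).eval t = AA A (zt t) (a • Y1 + W t) := by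
      intro t
      rw [H78.FH.eval_aeval2]
      unfold AA
      refine congrArg (fun g => eval g A) ?_
      ext k
      cases k with
      | inl k => simp [hx, hztk]; ring
      | inr k => simp [hx, hWk]; ring
    have ey : ∀ t, (aeval y A).eval t = AA A (zt t) (W t) := by
      intro t
      rw [H78.FH.eval_aeval2]
      unfold AA
      refine congrArg (fun g => eval g A) ?_
      ext k
      cases k with
      | inl k => simp [hy, hztk]; ring
      | inr k => simp [hy, hWk]; ring
    have hxy : aeval x A = aeval y A := by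
      apply Polynomial.eq_of_infinite_eval_eq
      apply hinf.mono
      intro t ht
      change Polynomial.eval t _ = Polynomial.eval t _
      rw [ex, ey]
      -- no root, so constant
      set q : Polynomial ℂ := aeval (Sum.elim (fun k => Polynomial.C (zt t k))
        (fun k => Polynomial.X * Polynomial.C (Y1 k) + Polynomial.C (W t k)) :
          Fin 3 ⊕ Fin 3 → Polynomial ℂ) A with hq
      have eq : ∀ s, q.eval s = AA A (zt t) (s • Y1 + W t) := by
        intro s
        rw [hq, H78.FH.eval_aeval2]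
        unfold AA
        refine congrArg (fun g => eval g A) ?_
        ext k
        cases k with
        | inl k => simp
        | inr k => simp; ring
      have hdeg : q.degree = 0 ∨ q = 0 := by
        left
        by_contra hne
        obtain ⟨s, hs⟩ := IsAlgClosed.exists_root q hne
        have hs' : q.eval s = 0 := hs
        rw [eq] at hs'
        apply ht.2
        refine ⟨ht.1, s • Y1 + W t, ⟨?_, ?_, hs'⟩, ?_⟩
        · intro h0
          have := (hWY t s 1 (by rw [one_smul]; exact h0)).2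
          exact one_ne_zero this
        · rw [dt_add_right, dt_smul_right, hztY, hWz]; ring
        · rw [LinearIndependent.pair_iff]
          intro a b hab
          have h1 : (a + b * s) • Y1 + b • W t = 0 := by
            rw [← hab, add_smul, smul_add, smul_smul]; abel
          obtain ⟨h2, h3⟩ := hWY t _ _ h1
          rw [h3, zero_mul, add_zero] at h2
          exact ⟨h2, h3⟩
      have hconst : ∀ s, q.eval s = q.eval 0 := by
        intro s
        rcases hdeg with h0 | h0
        · rw [Polynomial.eq_C_of_degree_eq_zero h0]; simp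
        · rw [h0]; simp
      have := hconst a
      rw [eq, eq, zero_smul, zero_add] at this
      exact this
    have := congrArg (Polynomial.eval t) hxy
    rwa [ex, ey] at this
  have key2 : ∀ (t a b : ℂ), AA A (zt t) (a • Y1 + b • W t) = b ^ d * AA A (zt t) (W t) := by
    intro t a b
    by_cases hb : b = 0
    · rw [hb, zero_smul, add_zero, hAY, hZ _ (hztY t), zero_pow (by omega)]; ring
    · have h1 : a • Y1 + b • W t = b • ((a / b) • Y1 + W t) := by
        rw [smul_add, smul_smul, mul_div_cancel₀ a hb]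
      rw [h1, hAY, key]
  have hA0 : AA A z (W 0) ≠ 0 := by
    obtain ⟨Y, hY, hYA⟩ := (hgood z hz).2.2
    rw [← hz00] at hY hYA
    obtain ⟨a, b, rfl⟩ := hbasis 0 Y hY
    rw [key2] at hYA
    have := right_ne_zero_of_mul hYA
    rwa [hz00] at this
  constructor
  · intro Y hY
    obtain ⟨h1, h2, h3⟩ := hY
    rw [← hz00] at h2 h3
    obtain ⟨a, b, rfl⟩ := hbasis 0 Y h2
    rw [key2, hz00] at h3
    have hb : b = 0 := by
      have := (mul_eq_zero.mp h3).resolve_right hA0
      exact pow_eq_zero_iff (by omega) |>.mp this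
    rw [hb, zero_smul, add_zero] at h1 ⊢
    refine ⟨a, ?_, rfl⟩
    rintro rfl
    exact h1 (zero_smul _ _)
  · -- derivative
    have hder : ∀ t ∈ B, ∀ U, dt (zt t) U = 0 → ∃ c : ℂ, dp (cp p) U Y1 = c • ev (cp p) Y1 := by
      intro t ht U hU
      have hgt := hgood (zt t) ht
      have hinj := hINJ m d p A hc (zt t) hgt.1 hgt.2.2
      have hdA : dAY A U (zt t) Y1 = 0 := by
        obtain ⟨a, b, rfl⟩ := hbasis t U hU
        apply dAY_zero A (zt t) Y1 _ d hd (b ^ d * AA A (zt t) (W t))
        intro s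
        have h1 : Y1 + s • (a • Y1 + b • W t) = (1 + s * a) • Y1 + (s * b) • W t := by
          rw [smul_add, smul_smul, smul_smul, ← add_assoc, add_smul, one_smul]
        rw [h1, key2, mul_pow]; ring
      have hpar := (hPAR m d p A hc (zt t) hinj).2 Y1 U ⟨hY1, hztY t, hZ _ (hztY t)⟩ hU hdA
      exact mult_of_not_li hevY1 hpar
    obtain ⟨τ, hτ, hτ0⟩ : ∃ τ ∈ B, τ ≠ 0 := by
      obtain ⟨τ, hτ⟩ := (hBinf.sdiff (Set.finite_singleton (0 : ℂ))).nonempty
      exact ⟨τ, hτ.1, hτ.2⟩
    intro U hLI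
    have h0B : (0 : ℂ) ∈ B := by
      change ‖zt 0 - z0‖ < ε
      rw [hz00]; exact hz
    -- decompose
    have hdec : ∃ U1 U2, U = U1 + U2 ∧ dt (zt 0) U1 = 0 ∧ dt (zt τ) U2 = 0 := by
      have h1 : dt h (cr z u) ≠ 0 := by
        intro h1
        apply hh
        rw [hκ, dt_smul_right, h1, mul_zero]
      have h2 : dt (zt τ) (W 0) = τ * (-(dt h (cr z u))) := by
        simp only [hW, hzt]
        simp only [dt3, cr_apply0, cr_apply1, cr_apply2, Pi.add_apply, Pi.smul_apply, smul_eq_mul]
        ring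
      have h3 : dt (zt τ) (W 0) ≠ 0 := by
        rw [h2]
        exact mul_ne_zero hτ0 (neg_ne_zero.mpr h1)
      refine ⟨(dt (zt τ) U / dt (zt τ) (W 0)) • W 0, U - (dt (zt τ) U / dt (zt τ) (W 0)) • W 0,
        by abel, ?_, ?_⟩
      · rw [dt_smul_right, hWz, mul_zero]
      · rw [dt_sub_right, dt_smul_right, div_mul_cancel₀ _ h3, sub_self]
    obtain ⟨U1, U2, rfl, h1, h2⟩ := hdec
    obtain ⟨c1, hc1⟩ := hder 0 h0B U1 h1
    obtain ⟨c2, hc2⟩ := hder τ hτ U2 h2
    rw [dp_add, hc1, hc2, ← add_smul] at hLI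
    have := (li_iff hevY1).1 hLI (c1 + c2)
    exact this rfl

theorem t_I1 (hSWAP : S_SWAP) (hBAS : S_BAS) (hINJ : S_INJ) (hPAR : S_PAR) (hSTAR : S_STAR) :
    S_I1 := by
  intro m d p A hc z0 ε hε hall z hz
  obtain ⟨-, -, -, -, hAY, -, -, -⟩ := hBAS m d p A hc
  obtain ⟨Y1, hY1, hzY1, hZ⟩ := (hall z hz).2
  obtain ⟨h1, -⟩ := core hSWAP hBAS hINJ hPAR hSTAR m d p A hc z0 ε (fun z hz => (hall z hz).1)
    z hz Y1 hY1 hzY1 hZ
  constructor
  · intro Y Y' hY hY' hLI
    obtain ⟨c, hc0, rfl⟩ := h1 Y hY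
    obtain ⟨c', hc0', rfl⟩ := h1 Y' hY'
    have := (LinearIndependent.pair_iff.1 hLI) c' (-c) (by
      rw [smul_smul, smul_smul, ← add_smul]
      have : c' * c + -c * c' = 0 := by ring
      rw [this, zero_smul])
    exact hc0' this.1
  · intro Y hY
    obtain ⟨c, hc0, rfl⟩ := h1 Y hY
    refine (core hSWAP hBAS hINJ hPAR hSTAR m d p A hc z0 ε (fun z hz => (hall z hz).1)
      z hz (c • Y1) (smul_ne_zero hc0 hY1) (by rw [dt_smul_right, hzY1, mul_zero]) ?_).2
    intro z' hz'
    rw [dt_smul_right] at hz'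
    rw [hAY, hZ z' ((mul_eq_zero.mp hz').resolve_left hc0), mul_zero]

end H95.FH.I1
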