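import Pool.Agent.H95.FH.Asm
import Pool.Agent.H95.FH.Fin
import Pool.Agent.H95.FH.I1
import Pool.Agent.H26.FH.Mapp
import Pool.Agent.H31.FH.SQB
import Pool.Agent.H32.FH.PAR
import Pool.Agent.H32.FH.QF
import Pool.Agent.H33.FH.FA
import Pool.Agent.H33.FH.FB
import Pool.Agent.H38.FH.INJ
import Pool.Agent.H38.FH.SIM
import Pool.Agent.H38.FH.PART
import Pool.Agent.H38.FH.RO
import Pool.Agent.H41.FH.SQA
import Pool.Agent.H54.FH.Detq
import Pool.Agent.H55.FH.NO3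
import Pool.Agent.H61.FH.RED
import Pool.Agent.H66.FH.BIL
import Pool.Agent.H74.FH.Cas
import Pool.Agent.H74.FH.SwapBas
import Pool.Agent.H78.FH.BF
import Pool.Agent.H78.FH.I2
import Pool.Agent.H83.FH.ADJ
import Pool.Agent.H87.FH.GOOD
import Pool.Agent.H88.FH.GOPEN

namespace H95.FH
open H95.FG

theorem all_SWAP : S_SWAP := Pool.Agent.H74.FH.t_SWAP
theorem all_BAS : S_BAS := Pool.Agent.H74.FH.t_BAS
theorem all_PAR : S_PAR := H32.FH.t_PAR
theorem all_INJ : S_INJ := H38.FH.t_INJ all_SWAP all_BAS H54.FG.t_PAIR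
theorem all_SIM : S_SIM := H38.FH.t_SIM all_SWAP all_BAS all_INJ all_PAR
theorem all_QF : S_QF := H32.FH.t_QF all_BAS
theorem all_GOOD : S_GOOD := H87.FH.t_GOOD t_ZFP all_NV H81.FG.t_ZFLI H81.FG.t_OPEN all_SWAP
theorem all_GOPEN : S_GOPEN := H88.FH.t_GOPEN all_BAS
theorem all_GRO : S_GRO := H88.FH.t_GRO all_GOPEN all_BAS
theorem all_PART : S_PART := H38.FH.t_PART all_SWAP all_BAS all_PAR all_INJ all_SIM all_QF
theorem all_NO3 : S_NO3 := H55.FH.t_NO3 all_SIM all_BAS all_PAR all_INJ all_SWAP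

theorem all_RO : S_RO := H38.FH.t_RO all_SWAP all_SIM all_QF
theorem all_I2 : S_I2 := H78.FH.t_I2 all_SWAP all_BAS H12.FG.t_STAR

theorem all_NO2 (hGR : S_GREAT) : S_NO2 := by
  have hRO := all_RO
  have hD : S_DETQ := H54.FH.t_DETQ all_QF hRO all_PART all_GRO all_SWAP all_BAS
  have hSB : S_SQB := H31.FH.t_SQB all_QF hD hRO all_PART all_GRO Pool.Agent.H41.FH.t_SQA
    H83.FH.t_ADJ all_BAS
  exact t_NO2 hGR hD hSB (H61.FH.t_RED all_BAS all_QF H83.FH.t_ADJ) (H66.FH.t_BIL all_BAS all_SWAP)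
    (H26.FH.t_MAPP hRO all_PART all_GRO all_BAS all_SWAP) (H32.FH.t_STAR2 all_SWAP all_BAS)
    H78.FH.t_BF Pool.Agent.H74.FH.t_CAS (H33.FH.t_FA all_BAS) (H33.FH.t_FB all_BAS all_SWAP)

theorem all_I1 : S_I1 := H95.FH.I1.t_I1 all_SWAP all_BAS all_INJ all_PAR H12.FG.t_STAR

theorem all_THREE : S_THREE := by
  have hGR : S_GREAT := t_GREAT all_GOOD all_GOPEN all_I1 all_I2
  exact t_THREE hGR all_NO3 (all_NO2 hGR)

end H95.FH
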