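import Pool.Agent.H95.FH.Defs
import Pool.Agent.H95.FG.All

open MvPolynomial

namespace H95.FH
open H95.FG

theorem t_GREAT (hG : S_GOOD) (hO : S_GOPEN) (h1 : S_I1) (h2 : S_I2) : S_GREAT := by
  intro m d p A hc
  by_contra hno
  push Not at hno
  obtain ⟨z0, hz0⟩ := hG m d p A hc
  obtain ⟨ε, hε, hg⟩ := hO m d p A hc z0 hz0
  have key : ∀ z, ‖z - z0‖ < ε → Good p A z ∧
      ∃ Y, Y ≠ 0 ∧ dt z Y = 0 ∧ ∀ z', dt z' Y = 0 → AA A z' Y = 0 := by
    intro z hz
    refine ⟨hg z hz, ?_⟩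
    by_contra h
    push Not at h
    exact hno z ⟨hg z hz, fun Y hY hd => h Y hY hd⟩
  exact h2 m d p A hc z0 ε hε (fun z hz => ⟨hg z hz, h1 m d p A hc z0 ε hε key z hz⟩)

theorem bl_one (z Y : Fin 3 → ℂ) : bl 1 z Y = dt z Y := by
  unfold bl dt
  simp [Matrix.one_apply, Fin.sum_univ_three]

theorem rk2_one : Rk2 (1 : Matrix (Fin 3) (Fin 3) ℂ) := by
  intro a b
  by_contra h
  push Not at h
  have e : ∀ k l : Fin 3, (if k = l then (1:ℂ) else 0) = a k * b l := by
    intro k l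
    have := h (Pi.single k 1) (Pi.single l 1)
    rw [bl_one] at this
    unfold dt at this
    simpa [Pi.single_apply, eq_comm] using this
  have h00 := e 0 0
  have h11 := e 1 1
  have h01 := e 0 1
  simp at h00 h11 h01
  rcases h01 with h | h
  · rw [h] at h00; simp at h00
  · rw [h] at h11; simp at h11

theorem t_NO2 (hGR : S_GREAT) (hD : S_DETQ) (hSB : S_SQB) (hR : S_RED) (hB : S_BIL)
    (hM : S_MAPP) (hS : S_STAR2) (hBF : S_BF) (hC : S_CAS) (hFA : S_FA) (hFB : S_FB) :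
    S_NO2 := by
  intro m p A hc
  obtain ⟨z0, hz0⟩ := hGR m 2 p A hc
  have hex : ∃ z, Great p A z := ⟨z0, hz0⟩
  have hdet := hD m p A hc hex
  have hsq := hSB m p A hc hex
  have hred := hR m p A hc hdet hsq
  have hbil := hB m p A hc hred
  obtain ⟨M1, M2, c, hc0, hA, hk1, hk2, hmap, Y, hli⟩ := hM m p A hc hex hbil
  have hstar := hS m p A hc M1 M2 c hA hmap
  have hx : ∀ x : ℂ, M1 ≠ x • (1 : Matrix (Fin 3) (Fin 3) ℂ) := by
    intro x hx
    have h1 : M1.mulVec Y = x • Y := by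
      rw [hx, Matrix.smul_mulVec, Matrix.one_mulVec]
    rw [h1] at hli
    have := Fintype.linearIndependent_iff.1 hli ![x, -1, 0] (by
      simp [Fin.sum_univ_three]) 1
    simp at this
  have hσ := hBF ![M1.conjTranspose, M1.conjTranspose * M1, M1.conjTranspose * M2] ![1, M1, M2]
    ((starRingEnd ℂ) c) (by simpa using hc0) (by
      intro i
      fin_cases i
      · exact rk2_one
      · exact hk1
      · exact hk2) (by
      intro z Y'
      have := hstar z Y'
      simpa [Fin.prod_univ_three] using this)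
  rcases hC M1 M2 hσ with ⟨a, ha⟩ | ⟨a, s, b, ha, hb, h1, h2, h3⟩ | ⟨a, b, e, ha, hb, h1, h2, h3⟩
  · exact hx a ha
  · exact hFA m p A hc M1 M2 a s b ha hb hA h1 h2 h3 ⟨Y, hli⟩
  · exact hFB m p A hc M1 M2 a b e ha hb hA hk1 hk2 hx h1 h2 h3

theorem t_THREE (hGR : S_GREAT) (h3 : S_NO3) (h2 : S_NO2) : S_THREE := by
  intro h
  obtain ⟨p, A, d, hsys, hd, hhom, hgcd⟩ :=
    all_MIN 3 4 (by norm_num) (by norm_num) (by norm_num) (Pool.Agent.H74.FG.pol 3 4 h)
  rcases Nat.lt_or_ge d 3 with hlt | hge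
  · have : d = 1 ∨ d = 2 := by omega
    rcases this with rfl | rfl
    · have := Pool.Agent.H74.FG.d1 3 4 p hsys.1 hhom
      omega
    · have := H12.FG.t_D2 H91.FG.t_HOMA 3 4 p A hsys hhom (by norm_num)
      omega
  · obtain ⟨e, rfl⟩ : ∃ e, d = e + 1 := ⟨d - 1, by omega⟩
    have hc : Ctx 4 e p A := ⟨hsys, by norm_num, le_refl _, hhom, by omega, hgcd⟩
    rcases Nat.lt_or_ge e 3 with he | he
    · have : e = 2 := by omega
      subst this
      exact h2 4 p A hc
    · obtain ⟨z, hz⟩ := hGR 4 e p A hc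
      exact h3 4 e p A hc he z hz

end H95.FH
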