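import Pool.Agent.H95.FG.Defs

/-!
# Interface of crew FH (MP_ce7760_an): `4 ∉ S_1(3)`

`z` and `Y` are in `ℂ^3`, `Y` plays the role of `conj w`. All parts of crew FG may be used
(`import Pool.Agent.H95.FG.All`): `H91.FG.t_HOMA`, `H12.FG.t_STAR`, `H54.FG.t_PAIR`,
`H81.FG.t_OPEN`, `H81.FG.t_ZFLI`, `H95.FG.t_ZFP`, `H95.FG.all_NV`, ...
-/

open MvPolynomial

namespace H95.FH
open H95.FG

/-- the dot product -/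
def dt {n : ℕ} (z Y : Fin n → ℂ) : ℂ := ∑ k, z k * Y k

/-- conjugate system -/
noncomputable def cp {n m : ℕ} (p : Fin m → MvPolynomial (Fin n) ℂ) :
    Fin m → MvPolynomial (Fin n) ℂ := fun j => cj (p j)

/-- `A` with the two groups of variables exchanged -/
noncomputable def sw {n : ℕ} (A : MvPolynomial (Fin n ⊕ Fin n) ℂ) :
    MvPolynomial (Fin n ⊕ Fin n) ℂ := rename Sum.swap A

/-- directional derivative of `A(z, ·)` at `Y` in the direction `U` -/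
noncomputable def dAY {n : ℕ} (A : MvPolynomial (Fin n ⊕ Fin n) ℂ) (U z Y : Fin n → ℂ) : ℂ :=
  ∑ k, U k * eval (Sum.elim z Y) (pderiv (Sum.inr k) A)

/-- standing assumptions: three variables, `m ≤ 4`, degree `d + 1 ≥ 3`, no common factor -/
structure Ctx (m d : ℕ) (p : Fin m → MvPolynomial (Fin 3) ℂ)
    (A : MvPolynomial (Fin 3 ⊕ Fin 3) ℂ) : Prop where
  sys : Sys 3 m p A
  hm1 : 1 ≤ m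
  hm : m ≤ 4
  hom : Hom p (d + 1)
  hd : 2 ≤ d
  gcd : ∀ φ : MvPolynomial (Fin 3) ℂ, (∀ j, φ ∣ p j) → IsUnit φ

/-- `Y` is a root of `A(z, ·)` on `z^⊥` -/
def Root (A : MvPolynomial (Fin 3 ⊕ Fin 3) ℂ) (z Y : Fin 3 → ℂ) : Prop :=
  Y ≠ 0 ∧ dt z Y = 0 ∧ AA A z Y = 0

def Good {m : ℕ} (p : Fin m → MvPolynomial (Fin 3) ℂ) (A : MvPolynomial (Fin 3 ⊕ Fin 3) ℂ)
    (z : Fin 3 → ℂ) : Prop :=
  ev p z ≠ 0 ∧ (∀ Y, Y ≠ 0 → dt z Y = 0 → ev (cp p) Y ≠ 0) ∧ ∃ Y, dt z Y = 0 ∧ AA A z Y ≠ 0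

def Great {m : ℕ} (p : Fin m → MvPolynomial (Fin 3) ℂ) (A : MvPolynomial (Fin 3 ⊕ Fin 3) ℂ)
    (z : Fin 3 → ℂ) : Prop :=
  Good p A z ∧ ∀ Y, Y ≠ 0 → dt z Y = 0 → ∃ z', dt z' Y = 0 ∧ AA A z' Y ≠ 0

/-- bilinear form of a matrix -/
def bl (M : Matrix (Fin 3) (Fin 3) ℂ) (z Y : Fin 3 → ℂ) : ℂ := ∑ k, ∑ l, z k * M k l * Y l

/-- the form of `M` is not a product of two linear forms (rank at least two) -/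
def Rk2 (M : Matrix (Fin 3) (Fin 3) ℂ) : Prop :=
  ∀ a b : Fin 3 → ℂ, ∃ z Y, bl M z Y ≠ dt z a * dt b Y

/-- the symmetric matrix of the quadratic form `A(z, ·)` (degree `(2,2)`) -/
noncomputable def QQ (A : MvPolynomial (Fin 3 ⊕ Fin 3) ℂ) (z : Fin 3 → ℂ) :
    Matrix (Fin 3) (Fin 3) ℂ :=
  Matrix.of fun k l => (AA A z (Pi.single k 1 + Pi.single l 1) - AA A z (Pi.single k 1) -
    AA A z (Pi.single l 1)) / 2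

abbrev P3 (m : ℕ) := Fin m → MvPolynomial (Fin 3) ℂ
abbrev Q3 := MvPolynomial (Fin 3 ⊕ Fin 3) ℂ

/-! ## statements -/

def S_SWAP : Prop := ∀ (m d : ℕ) (p : P3 m) (A : Q3), Ctx m d p A →
  Ctx m d (cp p) (sw A) ∧ (∀ z Y, AA (sw A) Y z = AA A z Y) ∧
  (∀ U z Y, dA (sw A) U Y z = dAY A U z Y) ∧
  (∀ z Y, AA A (cv Y) (cv z) = (starRingEnd ℂ) (AA A z Y)) ∧
  cp (cp p) = p ∧ sw (sw A) = A ∧
  (∀ z j, ev (cp p) (cv z) j = (starRingEnd ℂ) (ev p z j))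

/-- `K(z, Y) = (z·Y) A(z, Y)`, homogeneity of `p`, `A`, `cp p` -/
def S_BAS : Prop := ∀ (m d : ℕ) (p : P3 m) (A : Q3), Ctx m d p A →
  (∀ z Y, ∑ j, ev p z j * ev (cp p) Y j = dt z Y * AA A z Y) ∧
  (∀ (c : ℂ) z, ev p (c • z) = c ^ (d + 1) • ev p z) ∧
  (∀ (c : ℂ) Y, ev (cp p) (c • Y) = c ^ (d + 1) • ev (cp p) Y) ∧
  (∀ (c : ℂ) z Y, AA A (c • z) Y = c ^ d * AA A z Y) ∧
  (∀ (c : ℂ) z Y, AA A z (c • Y) = c ^ d * AA A z Y) ∧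
  (∀ z, dp p z z = ((d : ℂ) + 1) • ev p z) ∧
  (∀ x : Fin m → ℂ, (∀ z, ∑ j, ev p z j * x j = 0) → x = 0) ∧
  (∀ z, z ≠ 0 → ∃ Y, Root A z Y)

def S_INJ : Prop := ∀ (m d : ℕ) (p : P3 m) (A : Q3), Ctx m d p A → ∀ z, ev p z ≠ 0 →
  (∃ Y, dt z Y = 0 ∧ AA A z Y ≠ 0) → ∀ v, dp p v z = 0 → v = 0

def S_PAR : Prop := ∀ (m d : ℕ) (p : P3 m) (A : Q3), Ctx m d p A → ∀ z,
  (∀ v, dp p v z = 0 → v = 0) →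
  (∀ Y Y', Root A z Y → Root A z Y' → ¬ LinearIndependent ℂ ![ev (cp p) Y, ev (cp p) Y']) ∧
  (∀ Y U, Root A z Y → dt z U = 0 → dAY A U z Y = 0 →
    ¬ LinearIndependent ℂ ![ev (cp p) Y, dp (cp p) U Y])

def S_GOOD : Prop := ∀ (m d : ℕ) (p : P3 m) (A : Q3), Ctx m d p A → ∃ z0, Good p A z0

def S_GOPEN : Prop := ∀ (m d : ℕ) (p : P3 m) (A : Q3), Ctx m d p A → ∀ z0, Good p A z0 →
  ∃ ε > 0, ∀ z, ‖z - z0‖ < ε → Good p A z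

def S_GRO : Prop := ∀ (m d : ℕ) (p : P3 m) (A : Q3), Ctx m d p A → ∀ z0, Great p A z0 →
  ∃ ε > 0, ∀ z, ‖z - z0‖ < ε → Great p A z

/-- uniqueness of the root and the strong degeneracy at the root -/
def Deg {m : ℕ} (p : P3 m) (A : Q3) (z : Fin 3 → ℂ) : Prop :=
  (∀ Y Y', Root A z Y → Root A z Y' → ¬ LinearIndependent ℂ ![Y, Y']) ∧
  (∀ Y, Root A z Y → ∀ U, ¬ LinearIndependent ℂ ![ev (cp p) Y, dp (cp p) U Y])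

def S_I1 : Prop := ∀ (m d : ℕ) (p : P3 m) (A : Q3), Ctx m d p A → ∀ z0, ∀ ε > 0,
  (∀ z, ‖z - z0‖ < ε → Good p A z ∧ ∃ Y, Y ≠ 0 ∧ dt z Y = 0 ∧ ∀ z', dt z' Y = 0 → AA A z' Y = 0) →
  ∀ z, ‖z - z0‖ < ε → Deg p A z

def S_I2 : Prop := ∀ (m d : ℕ) (p : P3 m) (A : Q3), Ctx m d p A → ∀ z0, ∀ ε > 0,
  (∀ z, ‖z - z0‖ < ε → Good p A z ∧ Deg p A z) → False

def S_GREAT : Prop := ∀ (m d : ℕ) (p : P3 m) (A : Q3), Ctx m d p A → ∃ z0, Great p A z0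

/-- at a great point all roots are simple, on both sides -/
def S_SIM : Prop := ∀ (m d : ℕ) (p : P3 m) (A : Q3), Ctx m d p A → ∀ z Y, Great p A z →
  Root A z Y → (∀ U, dt z U = 0 → dAY A U z Y = 0 → ∃ c : ℂ, U = c • Y) ∧
    (∀ u, dt u Y = 0 → dA A u z Y = 0 → ∃ c : ℂ, u = c • z)

def S_NO3 : Prop := ∀ (m d : ℕ) (p : P3 m) (A : Q3), Ctx m d p A → 3 ≤ d → ∀ z,
  Great p A z → False

def S_PART : Prop := ∀ (m : ℕ) (p : P3 m) (A : Q3), Ctx m 2 p A → ∀ z Y, Great p A z →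
  Root A z Y → ∃ Y2 Y0, Root A z Y2 ∧ LinearIndependent ℂ ![Y, Y2] ∧ dt z Y0 ≠ 0 ∧
    (∃ c : ℂ, c ≠ 0 ∧ ev (cp p) Y2 = c • ev (cp p) Y) ∧ (∀ v, AA A v Y = dt v Y2 * dt v Y0) ∧
    (∀ v, dt v Y = 0 → AA A v Y2 = 0) ∧ AA A z (Y + Y2) ≠ 0

def S_RO : Prop := ∀ (m : ℕ) (p : P3 m) (A : Q3), Ctx m 2 p A → ∀ z1 Y1, ∀ ε > 0,
  Great p A z1 → Root A z1 Y1 → ∃ δ > 0, ∀ Y, ‖Y - Y1‖ < δ → ∃ z, ‖z - z1‖ < ε ∧ Root A z Y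

def S_QF : Prop := ∀ (m : ℕ) (p : P3 m) (A : Q3), Ctx m 2 p A → (∀ z, (QQ A z).IsSymm) ∧
  (∀ z Y, AA A z Y = ∑ k, ∑ l, Y k * QQ A z k l * Y l) ∧
  ∃ q : Fin 3 → Fin 3 → MvPolynomial (Fin 3) ℂ, (∀ k l, (q k l).IsHomogeneous 2) ∧
    ∀ z k l, eval z (q k l) = QQ A z k l

def S_DETQ : Prop := ∀ (m : ℕ) (p : P3 m) (A : Q3), Ctx m 2 p A → (∃ z, Great p A z) →
  ∀ z, (QQ A z).det = 0

def S_ADJ : Prop := ∀ (Q : Matrix (Fin 3) (Fin 3) ℂ), Q.IsSymm → Q.det = 0 →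
  ∀ Y U c : Fin 3 → ℂ, (∑ k, ∑ l, c k * Q.adjugate k l * (crossProduct Y U) l) ^ 2 =
    (∑ k, ∑ l, c k * Q.adjugate k l * c l) *
      ((∑ k, ∑ l, Y k * Q k l * Y l) * (∑ k, ∑ l, U k * Q k l * U l) -
        (∑ k, ∑ l, Y k * Q k l * U l) ^ 2)

def S_SQA : Prop := ∀ (F : MvPolynomial (Fin 3) ℂ) (z0 v0 : Fin 3 → ℂ), ∀ δ > 0,
  F.IsHomogeneous 4 → eval z0 F ≠ 0 →
  (∀ v, ‖v - v0‖ < δ → ∃ g : Polynomial ℂ, ∀ t, eval (z0 + t • v) F = (g.eval t) ^ 2) →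
  ∃ σ : MvPolynomial (Fin 3) ℂ, F = σ ^ 2

def S_SQB : Prop := ∀ (m : ℕ) (p : P3 m) (A : Q3), Ctx m 2 p A → (∃ z, Great p A z) →
  ∃ (c : Fin 3 → ℂ) (σ : MvPolynomial (Fin 3) ℂ), σ ≠ 0 ∧
    ∀ z, (eval z σ) ^ 2 = - ∑ k, ∑ l, c k * (QQ A z).adjugate k l * c l

def S_RED : Prop := ∀ (m : ℕ) (p : P3 m) (A : Q3), Ctx m 2 p A → (∀ z, (QQ A z).det = 0) →
  (∃ (c : Fin 3 → ℂ) (σ : MvPolynomial (Fin 3) ℂ), σ ≠ 0 ∧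
    ∀ z, (eval z σ) ^ 2 = - ∑ k, ∑ l, c k * (QQ A z).adjugate k l * c l) →
  ∃ A1 A2 : Q3, A = A1 * A2 ∧ ¬ IsUnit A1 ∧ ¬ IsUnit A2

def S_BIL : Prop := ∀ (m : ℕ) (p : P3 m) (A : Q3), Ctx m 2 p A →
  (∃ A1 A2 : Q3, A = A1 * A2 ∧ ¬ IsUnit A1 ∧ ¬ IsUnit A2) →
  ∃ M1 M2 : Matrix (Fin 3) (Fin 3) ℂ, (∀ z Y, AA A z Y = bl M1 z Y * bl M2 z Y) ∧
    Rk2 M1 ∧ Rk2 M2

def S_MAPP : Prop := ∀ (m : ℕ) (p : P3 m) (A : Q3), Ctx m 2 p A → (∃ z, Great p A z) →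
  (∃ M1 M2 : Matrix (Fin 3) (Fin 3) ℂ, (∀ z Y, AA A z Y = bl M1 z Y * bl M2 z Y) ∧
    Rk2 M1 ∧ Rk2 M2) →
  ∃ (M1 M2 : Matrix (Fin 3) (Fin 3) ℂ) (c : ℂ), c ≠ 0 ∧
    (∀ z Y, AA A z Y = bl M1 z Y * bl M2 z Y) ∧ Rk2 M1 ∧ Rk2 M2 ∧
    (∀ Y, ev (cp p) (M1.mulVec Y) = c • ev (cp p) Y) ∧
    ∃ Y, LinearIndependent ℂ ![Y, M1.mulVec Y, M2.mulVec Y]

def S_STAR2 : Prop := ∀ (m : ℕ) (p : P3 m) (A : Q3), Ctx m 2 p A →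
  ∀ (M1 M2 : Matrix (Fin 3) (Fin 3) ℂ) (c : ℂ),
  (∀ z Y, AA A z Y = bl M1 z Y * bl M2 z Y) →
  (∀ Y, ev (cp p) (M1.mulVec Y) = c • ev (cp p) Y) →
  ∀ z Y, bl M1.conjTranspose z Y * bl (M1.conjTranspose * M1) z Y *
      bl (M1.conjTranspose * M2) z Y =
    (starRingEnd ℂ) c * (bl 1 z Y * bl M1 z Y * bl M2 z Y)

def S_BF : Prop := ∀ (N P : Fin 3 → Matrix (Fin 3) (Fin 3) ℂ) (c : ℂ), c ≠ 0 →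
  (∀ i, Rk2 (P i)) → (∀ z Y, ∏ i, bl (N i) z Y = c * ∏ i, bl (P i) z Y) →
  ∃ σ : Equiv.Perm (Fin 3), ∀ i, ∃ a : ℂ, a ≠ 0 ∧ N i = a • P (σ i)

def S_CAS : Prop := ∀ (M1 M2 : Matrix (Fin 3) (Fin 3) ℂ),
  (∃ σ : Equiv.Perm (Fin 3), ∀ i, ∃ a : ℂ, a ≠ 0 ∧
    (![M1.conjTranspose, M1.conjTranspose * M1, M1.conjTranspose * M2] :
      Fin 3 → Matrix (Fin 3) (Fin 3) ℂ) i =
      a • (![1, M1, M2] : Fin 3 → Matrix (Fin 3) (Fin 3) ℂ) (σ i)) →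
  (∃ a : ℂ, M1 = a • (1 : Matrix (Fin 3) (Fin 3) ℂ)) ∨
  (∃ a s b : ℂ, a ≠ 0 ∧ b ≠ 0 ∧ M1.conjTranspose * M1 = a • (1 : Matrix (Fin 3) (Fin 3) ℂ) ∧
    M1 ^ 3 = s • (1 : Matrix (Fin 3) (Fin 3) ℂ) ∧ M2 = b • M1.conjTranspose) ∨
  (∃ a b e : ℂ, a ≠ 0 ∧ b ≠ 0 ∧ M1.conjTranspose * M1 = a • (1 : Matrix (Fin 3) (Fin 3) ℂ) ∧
    M1.conjTranspose = b • M1 ∧ M1 * M2 = e • M2)

def S_FA : Prop := ∀ (m : ℕ) (p : P3 m) (A : Q3), Ctx m 2 p A →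
  ∀ (M1 M2 : Matrix (Fin 3) (Fin 3) ℂ) (a s b : ℂ), a ≠ 0 → b ≠ 0 →
  (∀ z Y, AA A z Y = bl M1 z Y * bl M2 z Y) →
  M1.conjTranspose * M1 = a • (1 : Matrix (Fin 3) (Fin 3) ℂ) →
  M1 ^ 3 = s • (1 : Matrix (Fin 3) (Fin 3) ℂ) → M2 = b • M1.conjTranspose →
  (∃ Y, LinearIndependent ℂ ![Y, M1.mulVec Y, M2.mulVec Y]) → False

def S_FB : Prop := ∀ (m : ℕ) (p : P3 m) (A : Q3), Ctx m 2 p A →
  ∀ (M1 M2 : Matrix (Fin 3) (Fin 3) ℂ) (a b e : ℂ), a ≠ 0 → b ≠ 0 →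
  (∀ z Y, AA A z Y = bl M1 z Y * bl M2 z Y) → Rk2 M1 → Rk2 M2 →
  (∀ x : ℂ, M1 ≠ x • (1 : Matrix (Fin 3) (Fin 3) ℂ)) →
  M1.conjTranspose * M1 = a • (1 : Matrix (Fin 3) (Fin 3) ℂ) →
  M1.conjTranspose = b • M1 → M1 * M2 = e • M2 → False

def S_NO2 : Prop := ∀ (m : ℕ) (p : P3 m) (A : Q3), Ctx m 2 p A → False

def S_THREE : Prop := 4 ∉ SosRanks 1 3

end H95.FH
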